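import Mathlib
import Pool.Agent.H52.CF

set_option autoImplicit false
open Pool.Agent.H52.CF

namespace Pool.Agent.Results.MP_f17d28_nt.Example

/-- The map x to (d x + k) / (x + d) on the rationals with a point at infinity (written none). -/
def f (k : ℕ) (d : ℚ) : Option ℚ → Option ℚ
  | none => some d
  | some x => if x = -d then none else some ((d * x + k) / (x + d))

/-- The partial quotient c_n of the simple continued fraction of x. -/
noncomputable def pq (x : ℝ) (n : ℕ) : ℤ := ⌊(fun y : ℝ => (Int.fract y)⁻¹)^[n] x⌋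

lemma s0 : ⌊qs 45 0 1⌋ = 6 ∧ (Int.fract (qs 45 0 1))⁻¹ = qs 45 6 9 :=
  step 45 6 (by norm_num) (by norm_num) (by norm_num) _ _ _ _ _ (by norm_num) (by norm_num)
    (by norm_num) (by norm_num) (by norm_num)

lemma s1 : ⌊qs 45 6 9⌋ = 1 ∧ (Int.fract (qs 45 6 9))⁻¹ = qs 45 3 4 :=
  step 45 6 (by norm_num) (by norm_num) (by norm_num) _ _ _ _ _ (by norm_num) (by norm_num)
    (by norm_num) (by norm_num) (by norm_num)

lemma s2 : ⌊qs 45 3 4⌋ = 2 ∧ (Int.fract (qs 45 3 4))⁻¹ = qs 45 5 5 :=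
  step 45 6 (by norm_num) (by norm_num) (by norm_num) _ _ _ _ _ (by norm_num) (by norm_num)
    (by norm_num) (by norm_num) (by norm_num)

lemma s3 : ⌊qs 45 5 5⌋ = 2 ∧ (Int.fract (qs 45 5 5))⁻¹ = qs 45 5 4 :=
  step 45 6 (by norm_num) (by norm_num) (by norm_num) _ _ _ _ _ (by norm_num) (by norm_num)
    (by norm_num) (by norm_num) (by norm_num)

lemma s4 : ⌊qs 45 5 4⌋ = 2 ∧ (Int.fract (qs 45 5 4))⁻¹ = qs 45 3 9 :=
  step 45 6 (by norm_num) (by norm_num) (by norm_num) _ _ _ _ _ (by norm_num) (by norm_num)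
    (by norm_num) (by norm_num) (by norm_num)

lemma s5 : ⌊qs 45 3 9⌋ = 1 ∧ (Int.fract (qs 45 3 9))⁻¹ = qs 45 6 1 :=
  step 45 6 (by norm_num) (by norm_num) (by norm_num) _ _ _ _ _ (by norm_num) (by norm_num)
    (by norm_num) (by norm_num) (by norm_num)

lemma s6 : ⌊qs 45 6 1⌋ = 12 ∧ (Int.fract (qs 45 6 1))⁻¹ = qs 45 6 9 :=
  step 45 6 (by norm_num) (by norm_num) (by norm_num) _ _ _ _ _ (by norm_num) (by norm_num)
    (by norm_num) (by norm_num) (by norm_num)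

lemma c0 : (Real.sqrt (45 : ℕ)).convergent 0 = 6 := by
  rw [← qs_zero_one]
  simp only [Real.convergent_zero, s0.1]
  norm_num

lemma c4 : (Real.sqrt (45 : ℕ)).convergent 4 = 114 / 17 := by
  rw [← qs_zero_one]
  simp only [Real.convergent_succ, Real.convergent_zero, s0.1, s0.2, s1.1, s1.2, s2.1, s2.2,
    s3.1, s3.2, s4.1]
  norm_num

lemma pq_succ (x : ℝ) (n : ℕ) : pq x (n + 1) = pq (Int.fract x)⁻¹ n := by
  simp [pq, Function.iterate_succ_apply]

lemma pq_zero (x : ℝ) : pq x 0 = ⌊x⌋ := rfl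

lemma per (n : ℕ) : pq (Real.sqrt (45 : ℕ)) (n + 1 + 6) = pq (Real.sqrt (45 : ℕ)) (n + 1) := by
  rw [← qs_zero_one]
  simp only [pq_succ, s0.2, s1.2, s2.2, s3.2, s4.2, s5.2, s6.2]

lemma orb_inf (n : ℕ) : ∃ x : ℚ, 13 / 2 ≤ x ∧ (f 45 9)^[n + 1] none = some x := by
  induction n with
  | zero => exact ⟨9, by norm_num, rfl⟩
  | succ n ih =>
    obtain ⟨x, hx, h⟩ := ih
    refine ⟨(9 * x + 45) / (x + 9), ?_, ?_⟩
    · rw [le_div_iff₀ (by linarith)]; linarith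
    · rw [Function.iterate_succ_apply', h]
      have : x ≠ -9 := by linarith
      simp [f, this]

lemma orb_six (n : ℕ) : ∃ x : ℚ, 0 < x ∧ (f 45 9)^[n] (some 6) = some x := by
  induction n with
  | zero => exact ⟨6, by norm_num, rfl⟩
  | succ n ih =>
    obtain ⟨x, hx, h⟩ := ih
    refine ⟨(9 * x + 45) / (x + 9), by positivity, ?_⟩
    rw [Function.iterate_succ_apply', h]
    have : x ≠ -9 := by linarith
    simp [f, this]

/-- k = 45, d = 9, x0 = 6, L = 6: the orbit of x0 contains the convergents 6 and 114 / 17. -/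
theorem result :
    ∃ (k : ℕ) (d x₀ : ℚ) (L i j : ℕ), 0 < k ∧ ¬ IsSquare k ∧ 0 < d ∧
      (∃ m : ℤ, 4 * d ^ 2 / (k - d ^ 2) = m) ∧
      IsLeast {L : ℕ | 1 ≤ L ∧ ∀ n, 1 ≤ n → pq (Real.sqrt k) (n + L) = pq (Real.sqrt k) n} L ∧
      (∀ n : ℕ, (f k d)^[n] none ≠ some x₀ ∧ (f k d)^[n] (some x₀) ≠ none) ∧
      (∃ n : ℕ, (f k d)^[n] (some x₀) = some ((Real.sqrt k).convergent i)) ∧
      (∃ n : ℕ, (f k d)^[n] (some x₀) = some ((Real.sqrt k).convergent j)) ∧
      ¬ i ≡ j [MOD L] := by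
  refine ⟨45, 9, 6, 6, 0, 4, by norm_num, by decide +kernel, by norm_num, ⟨-9, by norm_num⟩,
    ⟨⟨by norm_num, ?_⟩, ?_⟩, ?_, ⟨0, by rw [c0]; rfl⟩, ⟨3, ?_⟩, by decide⟩
  · intro n hn
    obtain ⟨m, rfl⟩ : ∃ m, n = m + 1 := ⟨n - 1, by omega⟩
    exact per m
  · rintro L ⟨h1, h⟩
    by_contra hlt
    have h6 := h 6 (by norm_num)
    have hi : L = 1 ∨ L = 2 ∨ L = 3 ∨ L = 4 ∨ L = 5 := by omega
    rw [← qs_zero_one] at h6
    rcases hi with rfl | rfl | rfl | rfl | rfl <;>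
      simp only [pq_succ, pq_zero, s0.2, s1.2, s2.2, s3.2, s4.2, s5.2, s6.2, s1.1, s2.1, s3.1,
        s4.1, s5.1, s6.1] at h6 <;> omega
  · intro n
    constructor
    · rcases n with _ | n
      · simp
      · obtain ⟨x, hx, h⟩ := orb_inf n
        rw [h]
        intro he
        have : x = 6 := by simpa using he
        linarith
    · obtain ⟨x, _, h⟩ := orb_six n
      rw [h]; simp
  · rw [c4]; decide +kernel

end Pool.Agent.Results.MP_f17d28_nt.Example
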